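import Pool.Agent.Helper65.KPZ.St

/-!
# Project KP, module ZWT: weights and Abel summation
-/

set_option autoImplicit false

namespace Pool.Agent.Helper9.KPZ

open Pool.Agent.Helper52.KP Pool.Agent.Helper67.NO Pool.Agent.Helper65.KPZ

universe u

/-- Abel summation -/
theorem abel (D : ℕ → ℝ) (a : ℝ) (n : ℕ) :
    ∑ i ∈ Finset.range n, ((i : ℝ) - a) * (D i - D (i + 1)) =
      ∑ i ∈ Finset.range n, D (i + 1) - n * D n - a * (D 0 - D n) := by
  induction n with
  | zero => simp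
  | succ n ih =>
    rw [Finset.sum_range_succ, Finset.sum_range_succ, ih]
    push_cast
    ring

/-- the analytic content: `d` integer indexed antitone like sequence -/
theorem finsum_abel (d : ℤ → ℝ) (N : ℝ) (a : ℕ) (h0 : ∀ l : ℤ, l ≤ -(a : ℤ) → d l = N)
    (n : ℕ) (hn : ∀ l : ℤ, (n : ℤ) - a ≤ l → d l = 0) :
    ∑ᶠ l : ℤ, (l : ℝ) * (d l - d (l + 1)) + a * N =
      ∑ᶠ l : ℕ, d ((l : ℤ) + 1 - a) := by
  have hs : Function.support (fun l : ℤ => (l : ℝ) * (d l - d (l + 1))) ⊆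
      ((Finset.range n).image (fun i : ℕ => (i : ℤ) - a) : Finset ℤ) := by
    intro l hl
    rw [Function.mem_support] at hl
    rw [Finset.mem_coe, Finset.mem_image]
    have h1 : -(a : ℤ) ≤ l := by
      by_contra hc
      apply hl
      rw [h0 l (by omega), h0 (l + 1) (by omega)]
      ring
    have h2 : l < (n : ℤ) - a := by
      by_contra hc
      apply hl
      rw [hn l (by omega), hn (l + 1) (by omega)]
      ring
    refine ⟨(l + a).toNat, ?_, ?_⟩
    · rw [Finset.mem_range]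
      omega
    · omega
  have hs' : Function.support (fun l : ℕ => d ((l : ℤ) + 1 - a)) ⊆ (Finset.range n : Finset ℕ) := by
    intro l hl
    rw [Function.mem_support] at hl
    rw [Finset.mem_coe, Finset.mem_range]
    by_contra hc
    apply hl
    apply hn
    omega
  rw [finsum_eq_sum_of_support_subset _ hs, finsum_eq_sum_of_support_subset _ hs',
    Finset.sum_image (by intro x _ y _ hxy; simp only at hxy; omega)]
  have key := abel (fun i : ℕ => d ((i : ℤ) - a)) a n
  have e1 : ∑ i ∈ Finset.range n, (((i : ℤ) - a : ℤ) : ℝ) *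
      (d ((i : ℤ) - a) - d ((i : ℤ) - a + 1)) =
      ∑ i ∈ Finset.range n, ((i : ℝ) - a) * (d ((i : ℤ) - a) - d (((i + 1 : ℕ) : ℤ) - a)) := by
    apply Finset.sum_congr rfl
    intro i _
    have : ((i : ℤ) - a + 1) = ((i + 1 : ℕ) : ℤ) - a := by push_cast; ring
    rw [this]
    push_cast
    ring
  rw [e1, key]
  have e2 : d ((n : ℤ) - a) = 0 := hn _ le_rfl
  have e3 : d (((0 : ℕ) : ℤ) - a) = N := h0 _ (by push_cast; omega)
  simp only [e2, e3]
  have e4 : ∑ i ∈ Finset.range n, d (((i + 1 : ℕ) : ℤ) - a) =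
      ∑ i ∈ Finset.range n, d ((i : ℤ) + 1 - a) := by
    apply Finset.sum_congr rfl
    intro i _
    push_cast
    rfl
  rw [e4]
  ring

variable {g : Type u} [LieRing g] [LieAlgebra ℂ g] [FiniteDimensional ℂ g]

theorem anti_le {x₀ : g} {r : ℕ} {F : ℕ → ℤ → Submodule ℂ (OO x₀ → ℂ)}
    (hF : TestConf x₀ r F) (k : ℕ) (l : ℤ) (n : ℕ) : F k (l + n) ≤ F k l := by
  induction n with
  | zero => simp
  | succ n ih =>
    have := hF.anti k (l + n)
    push_cast
    rw [← add_assoc]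
    exact this.trans ih

theorem anti_le' {x₀ : g} {r : ℕ} {F : ℕ → ℤ → Submodule ℂ (OO x₀ → ℂ)}
    (hF : TestConf x₀ r F) (k : ℕ) {l l' : ℤ} (h : l ≤ l') : F k l' ≤ F k l := by
  obtain ⟨n, rfl⟩ : ∃ n : ℕ, l' = l + n := ⟨(l' - l).toNat, by omega⟩
  exact anti_le hF k l n

theorem finrank_tr {x₀ : g} {C : Cone} (hn : C.n = hdim x₀) (e : ∀ k, C.R k ≃ₗ[ℂ] Reg x₀ k)
    {r : ℕ} {F : ℕ → ℤ → Submodule ℂ (OO x₀ → ℂ)} (hF : TestConf x₀ r F) (M c k l : ℕ) :
    Module.finrank ℂ (tr e r M c F k l) = Module.finrank ℂ (F (M * k) ((l : ℤ) - c * k)) := by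
  unfold tr
  set j : C.R (C.n * (r * M) * k) →ₗ[ℂ] (OO x₀ → ℂ) :=
    (Reg x₀ (C.n * (r * M) * k)).subtype.comp (e (C.n * (r * M) * k)).toLinearMap with hj
  have hinj : Function.Injective j := by
    rw [hj]
    exact (Submodule.injective_subtype _).comp (e _).injective
  have hle : shf F M c (k, l) ≤ LinearMap.range j := by
    intro f hf
    have h1 : f ∈ Reg x₀ (hdim x₀ * r * (M * k)) := hF.le _ _ hf
    have h2 : hdim x₀ * r * (M * k) = C.n * (r * M) * k := by rw [hn]; ring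
    rw [h2] at h1
    refine ⟨(e _).symm ⟨f, h1⟩, ?_⟩
    rw [hj]
    simp
  have h1 : Module.finrank ℂ ((Submodule.comap j (shf F M c (k, l))).map
      (C.R (C.n * (r * M) * k)).subtype) =
      Module.finrank ℂ (Submodule.comap j (shf F M c (k, l))) :=
    (LinearEquiv.finrank_eq (Submodule.equivMapOfInjective _
      (Submodule.injective_subtype _) _)).symm
  have h2 : Module.finrank ℂ ((Submodule.comap j (shf F M c (k, l))).map j) =
      Module.finrank ℂ (Submodule.comap j (shf F M c (k, l))) :=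
    (LinearEquiv.finrank_eq (Submodule.equivMapOfInjective _ hinj _)).symm
  rw [h1, ← h2, Submodule.map_comap_eq_of_le hle]
  rfl

theorem hZWT : StZWT.{u} := by
  intro g _ _ _ x₀ C hC hn e r F hr hF M c hM h0 k
  obtain ⟨l₀, hl₀⟩ := hF.sep (M * k)
  have hN : ∀ l : ℤ, l ≤ -((c * k : ℕ) : ℤ) →
      F (M * k) l = Reg x₀ (hdim x₀ * r * (M * k)) := by
    intro l hl
    apply le_antisymm (hF.le _ _)
    rw [← h0 k]
    unfold shf
    apply anti_le' hF
    push_cast at hl ⊢
    linarith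
  have hZ : ∀ l : ℤ, (((l₀ + c * k).toNat : ℕ) : ℤ) - ((c * k : ℕ) : ℤ) ≤ l →
      F (M * k) l = ⊥ := by
    intro l hl
    apply le_antisymm _ bot_le
    rw [← hl₀]
    apply anti_le' hF
    have : l₀ + c * k ≤ (((l₀ + c * k).toNat : ℕ) : ℤ) := Int.self_le_toNat _
    push_cast at hl
    linarith
  have key := finsum_abel (fun l => (Module.finrank ℂ (F (M * k) l) : ℝ))
    (Module.finrank ℂ (Reg x₀ (hdim x₀ * r * (M * k))) : ℝ) (c * k)
    (fun l hl => by rw [hN l hl]) (l₀ + c * k).toNat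
    (fun l hl => by rw [hZ l hl, finrank_bot, Nat.cast_zero])
  have e1 : wF (tr e r M c F) k =
      ∑ᶠ l : ℕ, (Module.finrank ℂ (F (M * k) ((l : ℤ) + 1 - ((c * k : ℕ) : ℤ))) : ℝ) := by
    unfold wF
    apply finsum_congr
    intro l
    rw [finrank_tr hn e hF]
    push_cast
    rfl
  rw [e1, ← key]
  unfold wt
  push_cast
  ring

end Pool.Agent.Helper9.KPZ
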